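import Pool.Agent.Y58.HT.Stm4

/-!
# A 4-transitive infinite group has no nontrivial locally nilpotent normal subgroup

Project HT, part LN (by helper153); the techniques of `Pool.Agent.Y659.HT.VS4` (helper659).
-/

set_option autoImplicit false

universe u v

namespace Pool.Agent.Y153.HT

open H361P Pool.Agent.Y58.HT
open scoped commutatorElement

/-- central factors do not change commutators -/
lemma comm_mul_central {G : Type*} [Group G] {g h z w : G} (hz : z ∈ Subgroup.center G)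
    (hw : w ∈ Subgroup.center G) : ⁅g * z, h * w⁆ = ⁅g, h⁆ := by
  rw [Subgroup.mem_center_iff] at hz hw
  rw [commutatorElement_def, commutatorElement_def]
  calc g * z * (h * w) * (g * z)⁻¹ * (h * w)⁻¹
      = g * z * (h * w) * (z⁻¹ * g⁻¹) * (w⁻¹ * h⁻¹) := by rw [mul_inv_rev, mul_inv_rev]
    _ = g * (z * (h * w)) * z⁻¹ * g⁻¹ * w⁻¹ * h⁻¹ := by group
    _ = g * ((h * w) * z) * z⁻¹ * g⁻¹ * w⁻¹ * h⁻¹ := by rw [hz (h * w)]
    _ = g * h * (w * g⁻¹) * w⁻¹ * h⁻¹ := by group
    _ = g * h * (g⁻¹ * w) * w⁻¹ * h⁻¹ := by rw [hw g⁻¹]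
    _ = g * h * g⁻¹ * h⁻¹ := by group

/-- in a nilpotent group a subgroup which generates the group together with the commutator
subgroup is the whole group -/
theorem frat (G : Type u) [Group G] [Group.IsNilpotent G] :
    ∀ Q : Subgroup G, Q ⊔ commutator G = ⊤ → Q = ⊤ := by
  refine @Group.nilpotent_center_quotient_ind
    (fun G [Group G] [Group.IsNilpotent G] => ∀ Q : Subgroup G, Q ⊔ commutator G = ⊤ → Q = ⊤)
    G _ _ ?_ ?_
  · intro G _ _ Q _
    exact Subsingleton.elim _ _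
  · intro G _ _ ih Q hQ
    have hsur : Function.Surjective (QuotientGroup.mk' (Subgroup.center G)) :=
      QuotientGroup.mk'_surjective _
    have h1 : Q.map (QuotientGroup.mk' (Subgroup.center G)) = ⊤ := by
      apply ih
      have h2 : (commutator G).map (QuotientGroup.mk' (Subgroup.center G)) =
          commutator (G ⧸ Subgroup.center G) := by
        rw [commutator_def, commutator_def, Subgroup.map_commutator,
          Subgroup.map_top_of_surjective _ hsur]
      rw [← h2, ← Subgroup.map_sup, hQ, Subgroup.map_top_of_surjective _ hsur]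
    have h3 : ∀ g : G, ∃ q ∈ Q, ∃ z ∈ Subgroup.center G, g = q * z := by
      intro g
      have h4 : QuotientGroup.mk' (Subgroup.center G) g ∈
          Q.map (QuotientGroup.mk' (Subgroup.center G)) := by
        rw [h1]
        exact Subgroup.mem_top _
      obtain ⟨q, hq, hqg⟩ := h4
      have h5 : q⁻¹ * g ∈ Subgroup.center G := QuotientGroup.eq.1 hqg
      exact ⟨q, hq, q⁻¹ * g, h5, by group⟩
    have h6 : commutator G ≤ Q := by
      rw [commutator_def, Subgroup.commutator_le]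
      intro g _ h _
      obtain ⟨q, hq, z, hz, rfl⟩ := h3 g
      obtain ⟨q', hq', z', hz', rfl⟩ := h3 h
      rw [comm_mul_central hz hz', commutatorElement_def]
      exact Q.mul_mem (Q.mul_mem (Q.mul_mem hq hq') (Q.inv_mem hq)) (Q.inv_mem hq')
    rw [← hQ]
    exact (sup_eq_left.2 h6).symm

/-- a locally nilpotent group has no faithful 2-transitive action in which a nontrivial element
has a fixed point (step (3)) -/
theorem no_two {N : Type u} [Group N] {Ω : Type v} [MulAction N Ω] [FaithfulSMul N Ω]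
    (hln : LocNilp N) (x0 : Ω) (tr : ∀ z : Ω, ∃ g : N, g • x0 = z)
    (tr2 : ∀ y z : Ω, y ≠ x0 → z ≠ x0 → ∃ g : N, g • x0 = x0 ∧ g • y = z)
    (s : N) (hs : s ≠ 1) (hsx : s • x0 = x0) : False := by
  classical
  by_cases hall : ∀ a b : N, ⁅a, b⁆ • x0 = x0
  · -- `N` is abelian
    have h1 : ∀ a b : N, ⁅a, b⁆ = 1 := by
      intro a b
      apply FaithfulSMul.eq_of_smul_eq_smul (α := Ω)
      intro y
      obtain ⟨g, rfl⟩ := tr y
      have h2 := hall (g⁻¹ * a * g) (g⁻¹ * b * g)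
      have h3 : ⁅a, b⁆ * g = g * ⁅g⁻¹ * a * g, g⁻¹ * b * g⁆ := by
        simp only [commutatorElement_def]
        group
      rw [← mul_smul, h3, mul_smul, h2, one_smul]
    apply hs
    apply FaithfulSMul.eq_of_smul_eq_smul (α := Ω)
    intro y
    obtain ⟨g, rfl⟩ := tr y
    have h2 : s * g = g * s := commutatorElement_eq_one_iff_mul_comm.1 (h1 s g)
    rw [← mul_smul, h2, mul_smul, hsx, one_smul]
  · push Not at hall
    obtain ⟨a, b, hab⟩ := hall
    obtain ⟨c, hc⟩ : ∃ c, c = ⁅a, b⁆ := ⟨_, rfl⟩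
    rw [← hc] at hab
    have hfac : ∀ h : N, ∃ p q : N, p • x0 = x0 ∧ q • x0 = x0 ∧ (h = p * c * q ∨ h = p) := by
      intro h
      by_cases hh : h • x0 = x0
      · exact ⟨h, 1, hh, one_smul _ _, Or.inr rfl⟩
      · obtain ⟨p, hp1, hp2⟩ := tr2 (c • x0) (h • x0) hab hh
        refine ⟨p, (p * c)⁻¹ * h, hp1, ?_, Or.inl (by group)⟩
        rw [mul_smul, ← hp2, ← mul_smul p c, inv_smul_smul]
    obtain ⟨p1, q1, hp1, hq1, ha⟩ := hfac a
    obtain ⟨p2, q2, hp2, hq2, hb⟩ := hfac b
    obtain ⟨F, hF⟩ : ∃ F : Set N, F = {p1, q1, p2, q2} := ⟨_, rfl⟩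
    have hfin : (insert c F).Finite := by
      rw [hF]
      exact Set.toFinite _
    have hnil : Group.IsNilpotent (Subgroup.closure (insert c F)) := hln _ hfin
    have hmem : ∀ y ∈ insert c F, y ∈ Subgroup.closure (insert c F) := fun y hy =>
      Subgroup.subset_closure hy
    have hcm : c ∈ Subgroup.closure (insert c F) := hmem c (Set.mem_insert _ _)
    have hp1m : p1 ∈ Subgroup.closure (insert c F) := hmem p1 (Or.inr (by rw [hF]; simp))
    have hq1m : q1 ∈ Subgroup.closure (insert c F) := hmem q1 (Or.inr (by rw [hF]; simp))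
    have hp2m : p2 ∈ Subgroup.closure (insert c F) := hmem p2 (Or.inr (by rw [hF]; simp))
    have hq2m : q2 ∈ Subgroup.closure (insert c F) := hmem q2 (Or.inr (by rw [hF]; simp))
    have ham : a ∈ Subgroup.closure (insert c F) := by
      rcases ha with ha | ha
      · rw [ha]
        exact Subgroup.mul_mem _ (Subgroup.mul_mem _ hp1m hcm) hq1m
      · rw [ha]
        exact hp1m
    have hbm : b ∈ Subgroup.closure (insert c F) := by
      rcases hb with hb | hb
      · rw [hb]
        exact Subgroup.mul_mem _ (Subgroup.mul_mem _ hp2m hcm) hq2m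
      · rw [hb]
        exact hp2m
    have hQP : Subgroup.closure F ≤ MulAction.stabilizer N x0 := by
      rw [Subgroup.closure_le, hF]
      intro y hy
      simp only [Set.mem_insert_iff, Set.mem_singleton_iff] at hy
      rw [SetLike.mem_coe, MulAction.mem_stabilizer_iff]
      rcases hy with rfl | rfl | rfl | rfl
      · exact hp1
      · exact hq1
      · exact hp2
      · exact hq2
    have htop : (Subgroup.closure F).subgroupOf (Subgroup.closure (insert c F)) ⊔
        commutator (Subgroup.closure (insert c F)) = ⊤ := by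
      rw [eq_top_iff, ← Subgroup.closure_closure_coe_preimage (k := insert c F),
        Subgroup.closure_le]
      rintro ⟨y, hym⟩ hy
      rcases hy with hy | hy
      · have hy' : y = c := hy
        apply Subgroup.mem_sup_right
        have h1 : (⟨y, hym⟩ : Subgroup.closure (insert c F)) =
            ⁅(⟨a, ham⟩ : Subgroup.closure (insert c F)),
              (⟨b, hbm⟩ : Subgroup.closure (insert c F))⁆ := by
          apply Subtype.ext
          exact hy'.trans hc
        rw [h1, commutator_def]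
        exact Subgroup.commutator_mem_commutator (Subgroup.mem_top _) (Subgroup.mem_top _)
      · apply Subgroup.mem_sup_left
        rw [Subgroup.mem_subgroupOf]
        exact Subgroup.subset_closure hy
    have hQ := frat _ _ htop
    have hcQ : c ∈ Subgroup.closure F := by
      have h1 : (⟨c, hcm⟩ : Subgroup.closure (insert c F)) ∈
          (Subgroup.closure F).subgroupOf (Subgroup.closure (insert c F)) := by
        rw [hQ]
        exact Subgroup.mem_top _
      rwa [Subgroup.mem_subgroupOf] at h1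
    exact hab (MulAction.mem_stabilizer_iff.1 (hQP hcQ))

theorem t_ln : S_LN.{u} := by
  intro G _ _ hG N hN hln
  classical
  obtain ⟨Ω, _, hfaith, h4⟩ := hG
  have hΩ : Infinite Ω := by
    by_contra hfin
    rw [not_infinite_iff_finite] at hfin
    have : Finite G := Finite.of_injective (MulAction.toPermHom G Ω) MulAction.toPerm_injective
    exact not_finite G
  by_contra hne
  -- 4-transitivity on points
  have four : ∀ x y z w x' y' z' w' : Ω, x ≠ y → x ≠ z → x ≠ w → y ≠ z → y ≠ w → z ≠ w →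
      x' ≠ y' → x' ≠ z' → x' ≠ w' → y' ≠ z' → y' ≠ w' → z' ≠ w' →
      ∃ g : G, g • x = x' ∧ g • y = y' ∧ g • z = z' ∧ g • w = w' := by
    have hinj : ∀ x y z w : Ω, x ≠ y → x ≠ z → x ≠ w → y ≠ z → y ≠ w → z ≠ w →
        Function.Injective (![x, y, z, w] : Fin 4 → Ω) := by
      intro x y z w e1 e2 e3 e4 e5 e6 i j hij
      fin_cases i <;> fin_cases j <;> simp at hij ⊢ <;>
        first | exact absurd hij ‹_› | exact absurd hij.symm ‹_›
    intro x y z w x' y' z' w' e1 e2 e3 e4 e5 e6 e1' e2' e3' e4' e5' e6'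
    obtain ⟨g, hg⟩ := h4.2 ![x, y, z, w] ![x', y', z', w'] (hinj x y z w e1 e2 e3 e4 e5 e6)
      (hinj x' y' z' w' e1' e2' e3' e4' e5' e6')
    exact ⟨g, hg 0, hg 1, hg 2, hg 3⟩
  have three : ∀ x y z x' y' z' : Ω, x ≠ y → x ≠ z → y ≠ z → x' ≠ y' → x' ≠ z' → y' ≠ z' →
      ∃ g : G, g • x = x' ∧ g • y = y' ∧ g • z = z' := by
    intro x y z x' y' z' e1 e2 e3 e1' e2' e3'
    obtain ⟨w, hw⟩ := Infinite.exists_notMem_finset ({x, y, z} : Finset Ω)
    obtain ⟨w', hw'⟩ := Infinite.exists_notMem_finset ({x', y', z'} : Finset Ω)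
    simp only [Finset.mem_insert, Finset.mem_singleton, not_or] at hw hw'
    obtain ⟨g, h1, h2, h3, -⟩ := four x y z w x' y' z' w' e1 e2 (Ne.symm hw.1) e3
      (Ne.symm hw.2.1) (Ne.symm hw.2.2) e1' e2' (Ne.symm hw'.1) e3' (Ne.symm hw'.2.1)
      (Ne.symm hw'.2.2)
    exact ⟨g, h1, h2, h3⟩
  have two : ∀ x y x' y' : Ω, x ≠ y → x' ≠ y' → ∃ g : G, g • x = x' ∧ g • y = y' := by
    intro x y x' y' e1 e1'
    obtain ⟨z, hz⟩ := Infinite.exists_notMem_finset ({x, y} : Finset Ω)
    obtain ⟨z', hz'⟩ := Infinite.exists_notMem_finset ({x', y'} : Finset Ω)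
    simp only [Finset.mem_insert, Finset.mem_singleton, not_or] at hz hz'
    obtain ⟨g, h1, h2, -⟩ := three x y z x' y' z' e1 (Ne.symm hz.1) (Ne.symm hz.2) e1'
      (Ne.symm hz'.1) (Ne.symm hz'.2)
    exact ⟨g, h1, h2⟩
  obtain ⟨a0, ha0, ha01⟩ : ∃ a0 ∈ N, a0 ≠ 1 := by
    obtain ⟨a, ha⟩ := Subgroup.ne_bot_iff_exists_ne_one.mp hne
    exact ⟨a.1, a.2, fun h => ha (Subtype.ext h)⟩
  obtain ⟨x, hx⟩ : ∃ x : Ω, a0 • x ≠ x := by
    by_contra hcon
    push Not at hcon
    exact ha01 (FaithfulSMul.eq_of_smul_eq_smul fun x : Ω => by rw [hcon, one_smul])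
  have htrans : ∀ y z : Ω, ∃ b ∈ N, b • y = z := by
    intro y z
    by_cases hyz : y = z
    · exact ⟨1, N.one_mem, by rw [one_smul, hyz]⟩
    · obtain ⟨g, hg1, hg2⟩ := two x (a0 • x) y z (Ne.symm hx) hyz
      refine ⟨g * a0 * g⁻¹, hN.conj_mem _ ha0 g, ?_⟩
      rw [← hg1, mul_smul, mul_smul, inv_smul_smul, hg2]
  -- some nontrivial element has a fixed point
  obtain ⟨s, hsN, hs1, x0, hsx⟩ : ∃ s ∈ N, s ≠ 1 ∧ ∃ x0 : Ω, s • x0 = x0 := by
    by_contra hcon
    push Not at hcon
    have hfree : ∀ a ∈ N, ∀ b ∈ N, ∀ y : Ω, a • y = b • y → a = b := by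
      intro a ha b hb y hy
      by_contra hab
      refine hcon (b⁻¹ * a) (N.mul_mem (N.inv_mem hb) ha) (fun h => hab ?_) y ?_
      · exact (inv_mul_eq_one.1 h).symm
      · rw [mul_smul, hy, inv_smul_smul]
    have hNinf : Infinite N := by
      apply Infinite.of_surjective (fun b : N => (b : G) • x)
      intro z
      obtain ⟨b, hb, hbz⟩ := htrans x z
      exact ⟨⟨b, hb⟩, hbz⟩
    obtain ⟨b, hb⟩ := Infinite.exists_notMem_finset ({1, ⟨a0, ha0⟩, (⟨a0, ha0⟩)⁻¹} : Finset N)
    obtain ⟨c, hc⟩ := Infinite.exists_notMem_finset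
      ({1, ⟨a0, ha0⟩, b, ⟨a0, ha0⟩ * b} : Finset N)
    simp only [Finset.mem_insert, Finset.mem_singleton, not_or] at hb hc
    obtain ⟨b, hbN⟩ := b
    obtain ⟨c, hcN⟩ := c
    simp only [Subtype.ext_iff, Subgroup.coe_one, InvMemClass.coe_inv, MulMemClass.coe_mul]
      at hb hc
    have hab1 : a0 * b ≠ 1 := fun h => hb.2.2 (eq_inv_of_mul_eq_one_right h)
    have key : ∀ e ∈ N, e ≠ 1 → e ≠ a0 → e ≠ b → (x ≠ e • x ∧ a0 • x ≠ e • x ∧ b • x ≠ e • x) := by
      intro e he h1 h2 h3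
      exact ⟨fun h => h1 (hfree e he 1 N.one_mem x (by rw [← h, one_smul])),
        fun h => h2 (hfree a0 ha0 e he x h).symm, fun h => h3 (hfree b hbN e he x h).symm⟩
    have e1 : x ≠ a0 • x := Ne.symm hx
    have e2 : x ≠ b • x := fun h => hb.1 (hfree b hbN 1 N.one_mem x (by rw [← h, one_smul]))
    have e4 : a0 • x ≠ b • x := fun h => hb.2.1 (hfree a0 ha0 b hbN x h).symm
    obtain ⟨k1, k2, k3⟩ := key (a0 * b) (N.mul_mem ha0 hbN) hab1 (fun h => hb.1 (by simpa using h))
      (fun h => ha01 (by simpa using h))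
    obtain ⟨l1, l2, l3⟩ := key c hcN hc.1 hc.2.1 hc.2.2.1
    obtain ⟨g, g0, g1, g2, g3⟩ := four x (a0 • x) (b • x) ((a0 * b) • x) x (a0 • x) (b • x) (c • x)
      e1 e2 k1 e4 k2 k3 e1 e2 l1 e4 l2 l3
    have ginv : g⁻¹ • x = x := by rw [inv_smul_eq_iff, g0]
    have c1 : g * a0 * g⁻¹ = a0 := hfree _ (hN.conj_mem _ ha0 g) _ ha0 x (by
      rw [mul_smul, mul_smul, ginv, g1])
    have c2 : g * b * g⁻¹ = b := hfree _ (hN.conj_mem _ hbN g) _ hbN x (by
      rw [mul_smul, mul_smul, ginv, g2])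
    have c3 : g * (a0 * b) * g⁻¹ = a0 * b := by
      calc g * (a0 * b) * g⁻¹ = (g * a0 * g⁻¹) * (g * b * g⁻¹) := by group
        _ = a0 * b := by rw [c1, c2]
    have c4 : c = a0 * b := hfree c hcN _ (N.mul_mem ha0 hbN) x (by
      rw [← g3]
      conv_rhs => rw [← c3]
      rw [mul_smul (g * (a0 * b)), ginv, mul_smul g (a0 * b)])
    exact hc.2.2.2 c4
  obtain ⟨w, hw⟩ : ∃ w : Ω, s • w ≠ w := by
    by_contra hcon
    push Not at hcon
    exact hs1 (FaithfulSMul.eq_of_smul_eq_smul fun x : Ω => by rw [hcon, one_smul])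
  have hwx : w ≠ x0 := fun h => hw (by rw [h, hsx])
  have hswx : s • w ≠ x0 := fun h => hwx (by
    have h1 : s • w = s • x0 := by rw [h, hsx]
    exact smul_left_cancel s h1)
  have : FaithfulSMul N Ω := ⟨fun {m m'} h => Subtype.ext
    (FaithfulSMul.eq_of_smul_eq_smul (α := Ω) fun y => h y)⟩
  refine no_two (N := N) (Ω := Ω) hln x0 ?_ ?_ ⟨s, hsN⟩
    (fun h => hs1 (congrArg Subtype.val h)) hsx
  · intro z
    obtain ⟨b, hb, hbz⟩ := htrans x0 z
    exact ⟨⟨b, hb⟩, hbz⟩
  · intro y z hy hz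
    by_cases hyz : y = z
    · exact ⟨1, one_smul _ _, by rw [one_smul, hyz]⟩
    · obtain ⟨g, g0, g1, g2⟩ := three x0 w (s • w) x0 y z (Ne.symm hwx) (Ne.symm hswx)
        (Ne.symm hw) (Ne.symm hy) (Ne.symm hz) hyz
      have ginv : g⁻¹ • x0 = x0 := by rw [inv_smul_eq_iff, g0]
      refine ⟨⟨g * s * g⁻¹, hN.conj_mem _ hsN g⟩, ?_, ?_⟩
      · change (g * s * g⁻¹) • x0 = x0
        rw [mul_smul, mul_smul, ginv, hsx, g0]
      · change (g * s * g⁻¹) • y = z
        rw [← g1, mul_smul, mul_smul, inv_smul_smul, g2]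

end Pool.Agent.Y153.HT
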